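import Mathlib

/-!
The marked Poisson process on the line and stable multi-matchings (problem MP_32afb7_pr).
-/

namespace Pool.Agent.P.MP_32afb7_pr

open MeasureTheory ProbabilityTheory

/-- The law of the data `(gap i, degree i)`, `i : ℤ`: independent pairs, each made of an
exponential variable of rate one and an independent degree of law `μ`. -/
noncomputable def markedLaw (μ : Measure ℕ) : Measure (ℤ → ℝ × ℕ) :=
  Measure.infinitePi fun _ : ℤ => (expMeasure 1).prod μ

/-- The points built from the gaps `g`: for `n ≥ 1` the point `g 1 + ... + g n` to the right of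
the origin, for `n ≤ 0` the point `-(g n + ... + g 0)` to the left of the origin. With independent
exponential gaps of rate one these points form a Poisson process of intensity one on `ℝ`. -/
noncomputable def point (g : ℤ → ℝ) (n : ℤ) : ℝ :=
  ∑ i ∈ Finset.Ioc 0 n, g i - ∑ i ∈ Finset.Icc n 0, g i

/-- `G` is a stable multi-matching of the points `X i` with degrees `D i`: vertex `i` has degree
exactly `D i`, and two distinct points are joined or one of them has no incident edge longer than
their distance. -/
def IsStableMultiMatching (X : ℤ → ℝ) (D : ℤ → ℕ) (G : SimpleGraph ℤ) : Prop :=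
  (∀ i, (G.neighborSet i).encard = D i) ∧
    ∀ i j, i ≠ j → G.Adj i j ∨ (∀ k, G.Adj i k → |X i - X k| ≤ |X i - X j|) ∨
      (∀ k, G.Adj j k → |X j - X k| ≤ |X i - X j|)

end Pool.Agent.P.MP_32afb7_pr
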