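import Pool.Agent.P.MP_32afb7_pr.Defs

namespace Pool.Agent.P.MP_32afb7_pr

open Filter

variable {X : ℤ → ℝ} {D : ℤ → ℕ} {G : SimpleGraph ℤ}

/-- `i` has used all its stubs on edges of length at most `t`. -/
def Sat (X : ℤ → ℝ) (D : ℤ → ℕ) (G : SimpleGraph ℤ) (i : ℤ) (t : ℝ) : Prop :=
  (G.neighborSet i).encard = D i ∧ ∀ k, G.Adj i k → |X i - X k| ≤ t

/-- Stable matchings in which stubs may be left over. -/
def PStable (X : ℤ → ℝ) (D : ℤ → ℕ) (G : SimpleGraph ℤ) : Prop :=
  (∀ i, (G.neighborSet i).encard ≤ D i) ∧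
    ∀ i j, i ≠ j → G.Adj i j ∨ Sat X D G i |X i - X j| ∨ Sat X D G j |X i - X j|

theorem IsStableMultiMatching.pstable (h : IsStableMultiMatching X D G) : PStable X D G :=
  ⟨fun i => (h.1 i).le, fun i j hij => by
    rcases h.2 i j hij with h1 | h1 | h1
    · exact Or.inl h1
    · exact Or.inr (Or.inl ⟨h.1 i, h1⟩)
    · exact Or.inr (Or.inr ⟨h.1 j, h1⟩)⟩

theorem PStable.stable (h : PStable X D G) (h' : ∀ i, (G.neighborSet i).encard = D i) :
    IsStableMultiMatching X D G :=
  ⟨h', fun i j hij => by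
    rcases h.2 i j hij with h1 | h1 | h1
    · exact Or.inl h1
    · exact Or.inr (Or.inl h1.2)
    · exact Or.inr (Or.inr h1.2)⟩

theorem PStable.clique (h : PStable X D G) (a : ℤ) (e : ℕ) (s : ℝ) (S : Set ℤ)
    (h1 : ∀ y ∈ S, G.Adj a y ∧ D y ≤ e ∧ s ≤ |X a - X y|)
    (h2 : ∀ y ∈ S, ∀ z ∈ S, |X y - X z| < s) : S.encard ≤ (e + 1 : ℕ) := by
  rcases S.eq_empty_or_nonempty with rfl | ⟨y, hy⟩
  · simp
  have hns : ∀ y ∈ S, ∀ t, t < s → ¬ Sat X D G y t := by
    intro y hy t ht hs
    have := hs.2 a (h1 y hy).1.symm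
    rw [abs_sub_comm] at this
    linarith [(h1 y hy).2.2]
  have hsub : S \ {y} ⊆ G.neighborSet y := by
    rintro z ⟨hz, hzy⟩
    rcases h.2 y z (fun h0 => hzy h0.symm) with h3 | h3 | h3
    · exact h3
    · exact absurd h3 (hns y hy _ (h2 y hy z hz))
    · exact absurd h3 (hns z hz _ (h2 y hy z hz))
  calc S.encard = (S \ {y}).encard + 1 := (Set.encard_sdiff_singleton_add_one hy).symm
    _ ≤ (e : ℕ∞) + 1 := by
        gcongr
        exact (Set.encard_le_encard hsub).trans ((h.1 y).trans (by exact_mod_cast (h1 y hy).2.1))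
    _ = (e + 1 : ℕ) := by push_cast; rfl

theorem PStable.low (h : PStable X D G) (a : ℤ) (e : ℕ) (δ : ℝ)
    (hδ : ∀ y, y ≠ a → δ ≤ |X a - X y|) (L : ℕ) :
    {y | G.Adj a y ∧ D y ≤ e ∧ |X a - X y| < δ * 2 ^ L}.encard ≤ (2 * L * (e + 1) : ℕ) := by
  induction L with
  | zero =>
    have : {y | G.Adj a y ∧ D y ≤ e ∧ |X a - X y| < δ * 2 ^ 0} = ∅ := by
      ext y
      simp only [pow_zero, mul_one, Set.mem_ofPred_eq, Set.mem_empty_iff_false, iff_false, not_and,
        not_lt]
      exact fun h1 _ => hδ y h1.ne'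
    rw [this]; simp
  | succ L ih =>
    set s := δ * 2 ^ L with hs
    have h1 := h.clique a e s
      {y | G.Adj a y ∧ D y ≤ e ∧ s ≤ X y - X a ∧ X y - X a < 2 * s}
      (fun y hy => ⟨hy.1, hy.2.1, by rw [abs_sub_comm]; exact hy.2.2.1.trans (le_abs_self _)⟩)
      (fun y hy z hz => by
        rw [abs_lt]; constructor <;> linarith [hy.2.2.1, hy.2.2.2, hz.2.2.1, hz.2.2.2])
    have h2 := h.clique a e s
      {y | G.Adj a y ∧ D y ≤ e ∧ s ≤ X a - X y ∧ X a - X y < 2 * s}
      (fun y hy => ⟨hy.1, hy.2.1, hy.2.2.1.trans (le_abs_self _)⟩)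
      (fun y hy z hz => by
        rw [abs_lt]; constructor <;> linarith [hy.2.2.1, hy.2.2.2, hz.2.2.1, hz.2.2.2])
    have hsub : {y | G.Adj a y ∧ D y ≤ e ∧ |X a - X y| < δ * 2 ^ (L + 1)} ⊆
        ({y | G.Adj a y ∧ D y ≤ e ∧ |X a - X y| < s} ∪
          {y | G.Adj a y ∧ D y ≤ e ∧ s ≤ X y - X a ∧ X y - X a < 2 * s}) ∪
          {y | G.Adj a y ∧ D y ≤ e ∧ s ≤ X a - X y ∧ X a - X y < 2 * s} := by
      rintro y ⟨a1, a2, a3⟩
      have a4 : |X a - X y| < 2 * s := by rw [hs]; rw [pow_succ] at a3; linarith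
      by_cases a5 : |X a - X y| < s
      · exact Or.inl (Or.inl ⟨a1, a2, a5⟩)
      · rcases abs_cases (X a - X y) with ⟨a6, -⟩ | ⟨a6, -⟩
        · exact Or.inr ⟨a1, a2, by linarith, by linarith⟩
        · exact Or.inl (Or.inr ⟨a1, a2, by linarith, by linarith⟩)
    calc _ ≤ _ := Set.encard_le_encard hsub
      _ ≤ _ := Set.encard_union_le _ _
      _ ≤ ((2 * L * (e + 1) : ℕ) + (e + 1 : ℕ)) + (e + 1 : ℕ) :=
          add_le_add ((Set.encard_union_le _ _).trans (add_le_add ih h1)) h2
      _ = _ := by push_cast; ring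

theorem PStable.active (h : PStable X D G) (a : ℤ) (e : ℕ) (δ T : ℝ)
    (hδ : ∀ y, y ≠ a → δ ≤ |X a - X y|) (L : ℕ) (hT : T < δ * 2 ^ L) (m : ℕ)
    (hm : {y | e < D y ∧ |X a - X y| ≤ T}.encard ≤ m) (hD : 2 * L * (e + 1) + m < D a)
    (t : ℝ) (ht : t ≤ T) : ¬ Sat X D G a t := by
  rintro ⟨h1, h2⟩
  have hsub : G.neighborSet a ⊆ {y | G.Adj a y ∧ D y ≤ e ∧ |X a - X y| < δ * 2 ^ L} ∪
      {y | e < D y ∧ |X a - X y| ≤ T} := by
    intro y hy
    have h3 := (h2 y hy).trans ht
    by_cases h4 : D y ≤ e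
    · exact Or.inl ⟨hy, h4, h3.trans_lt hT⟩
    · exact Or.inr ⟨by omega, h3⟩
  have := (Set.encard_le_encard hsub).trans ((Set.encard_union_le _ _).trans
    (add_le_add (h.low a e δ hδ L) hm))
  rw [h1] at this
  norm_cast at this
  omega

theorem finite_stage (X : ℤ → ℝ) (D : ℤ → ℕ) (P : Finset (ℤ × ℤ)) :
    ∃ G : SimpleGraph ℤ, (∀ i k, G.Adj i k → (i, k) ∈ P ∨ (k, i) ∈ P) ∧
      (∀ i, (G.neighborSet i).encard ≤ D i) ∧
      ∀ p ∈ P, p.1 ≠ p.2 → G.Adj p.1 p.2 ∨ Sat X D G p.1 |X p.1 - X p.2| ∨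
        Sat X D G p.2 |X p.1 - X p.2| := by
  classical
  induction P using Finset.induction_on_max_value (fun p : ℤ × ℤ => |X p.1 - X p.2|) with
  | empty => exact ⟨⊥, by simp, by simp, by simp⟩
  | insert p P hp hmax ih =>
    obtain ⟨G, h1, h2, h3⟩ := ih
    obtain ⟨u, v⟩ := p
    have hlen : ∀ i k, G.Adj i k → |X i - X k| ≤ |X u - X v| := by
      intro i k hik
      rcases h1 i k hik with h | h
      · exact hmax _ h
      · rw [abs_sub_comm]; exact hmax _ h
    by_cases hc : u = v ∨ (G.neighborSet u).encard = D u ∨ (G.neighborSet v).encard = D v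
    · refine ⟨G, fun i k h => (h1 i k h).imp (Finset.mem_insert_of_mem) (Finset.mem_insert_of_mem),
        h2, fun q hq hne => ?_⟩
      rcases Finset.mem_insert.1 hq with rfl | hq
      · rcases hc with h | h | h
        · exact absurd h hne
        · exact Or.inr (Or.inl ⟨h, hlen _⟩)
        · exact Or.inr (Or.inr ⟨h, hlen _⟩)
      · exact h3 q hq hne
    · push Not at hc
      obtain ⟨huv, hu, hv⟩ := hc
      have hadj : ∀ i k, (G ⊔ SimpleGraph.edge u v).Adj i k ↔
          G.Adj i k ∨ (i = u ∧ k = v) ∨ (i = v ∧ k = u) := by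
        intro i k
        rw [SimpleGraph.sup_adj, SimpleGraph.edge_adj]
        constructor
        · rintro (h | ⟨h, -⟩)
          · exact Or.inl h
          · exact Or.inr h
        · rintro (h | h)
          · exact Or.inl h
          · refine Or.inr ⟨h, ?_⟩
            rcases h with ⟨rfl, rfl⟩ | ⟨rfl, rfl⟩
            · exact huv
            · exact huv.symm
      have hsame : ∀ i, i ≠ u → i ≠ v →
          (G ⊔ SimpleGraph.edge u v).neighborSet i = G.neighborSet i := by
        intro i a1 a2; ext k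
        simp only [SimpleGraph.mem_neighborSet, hadj, a1, a2, false_and, or_false]
      have hins : ∀ i k : ℤ, (G.neighborSet i).encard ≠ D i →
          (insert k (G.neighborSet i)).encard ≤ D i := by
        intro i k hi
        exact (Set.encard_insert_le _ _).trans (Order.add_one_le_of_lt (lt_of_le_of_ne (h2 i) hi))
      have hsat : ∀ i t, Sat X D G i t → Sat X D (G ⊔ SimpleGraph.edge u v) i t := by
        intro i t hs
        have a1 : i ≠ u := by rintro rfl; exact hu hs.1
        have a2 : i ≠ v := by rintro rfl; exact hv hs.1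
        refine ⟨by rw [hsame i a1 a2]; exact hs.1, fun k hk => hs.2 k ?_⟩
        simpa [hadj, a1, a2] using hk
      refine ⟨G ⊔ SimpleGraph.edge u v, ?_, ?_, ?_⟩
      · intro i k h
        rcases (hadj i k).1 h with h | ⟨rfl, rfl⟩ | ⟨rfl, rfl⟩
        · exact (h1 i k h).imp (Finset.mem_insert_of_mem) (Finset.mem_insert_of_mem)
        · exact Or.inl (Finset.mem_insert_self _ _)
        · exact Or.inr (Finset.mem_insert_self _ _)
      · intro i
        by_cases a1 : i = u
        · subst a1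
          refine (Set.encard_le_encard ?_).trans (hins i v hu)
          intro k hk
          rcases (hadj i k).1 hk with h | ⟨-, rfl⟩ | ⟨h, -⟩
          · exact Or.inr h
          · exact Or.inl rfl
          · exact absurd h huv
        by_cases a2 : i = v
        · subst a2
          refine (Set.encard_le_encard ?_).trans (hins i u hv)
          intro k hk
          rcases (hadj i k).1 hk with h | ⟨h, -⟩ | ⟨-, rfl⟩
          · exact Or.inr h
          · exact absurd h a1
          · exact Or.inl rfl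
        · rw [hsame i a1 a2]; exact h2 i
      · intro q hq hne
        rcases Finset.mem_insert.1 hq with rfl | hq
        · exact Or.inl ((hadj _ _).2 (Or.inr (Or.inl ⟨rfl, rfl⟩)))
        · rcases h3 q hq hne with h | h | h
          · exact Or.inl ((hadj _ _).2 (Or.inl h))
          · exact Or.inr (Or.inl (hsat _ _ h))
          · exact Or.inr (Or.inr (hsat _ _ h))

theorem exists_pstable (X : ℤ → ℝ) (D : ℤ → ℕ)
    (hfin : ∀ i t, {k | |X i - X k| ≤ t}.Finite) : ∃ G, PStable X D G := by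
  classical
  choose Gn h1 h2 h3 using fun n : ℕ =>
    finite_stage X D (Finset.Icc (-(n : ℤ)) n ×ˢ Finset.Icc (-(n : ℤ)) n)
  let U : Ultrafilter ℕ := Ultrafilter.of atTop
  have hU : (U : Filter ℕ) ≤ atTop := Ultrafilter.of_le _
  let G : SimpleGraph ℤ :=
    { Adj := fun i j => ∀ᶠ n in U, (Gn n).Adj i j
      symm := ⟨fun i j h => h.mono fun n hn => hn.symm⟩
      loopless := ⟨fun i h => by
        obtain ⟨n, hn⟩ := h.exists
        exact hn.ne rfl⟩ }
  have hsat : ∀ i t, (∀ᶠ n in U, Sat X D (Gn n) i t) → Sat X D G i t := by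
    intro i t h
    have : ∀ᶠ n in U, ∃ S ∈ 𝒫 {k | |X i - X k| ≤ t},
        (Gn n).neighborSet i = S ∧ S.encard = D i :=
      h.mono fun n hn => ⟨_, fun k hk => hn.2 k hk, rfl, hn.1⟩
    obtain ⟨S, hS, h4⟩ := (Ultrafilter.eventually_exists_mem_iff (hfin i t).powerset).1 this
    have h5 : G.neighborSet i = S := by
      ext k
      constructor
      · intro hk
        obtain ⟨n, a1, a2⟩ := (Filter.Eventually.and hk h4).exists
        rw [← a2.1]; exact a1
      · intro hk
        exact h4.mono fun n hn => by rw [← hn.1] at hk; exact hk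
    obtain ⟨n, hn⟩ := h4.exists
    exact ⟨by rw [h5]; exact hn.2, fun k hk => hS (h5 ▸ hk)⟩
  refine ⟨G, fun i => ?_, fun i j hij => ?_⟩
  · by_contra hc
    push Not at hc
    obtain ⟨S, hS, hcard⟩ := Set.exists_subset_encard_eq (Order.add_one_le_of_lt hc)
    have hSf : S.Finite := Set.finite_of_encard_eq_coe (k := D i + 1) (by rw [hcard]; rfl)
    obtain ⟨n, hn⟩ := ((Filter.eventually_all_finite hSf).2
      (fun k hk => (hS hk : ∀ᶠ n in U, (Gn n).Adj i k))).exists
    have := (Set.encard_le_encard (show S ⊆ (Gn n).neighborSet i from hn)).trans (h2 n i)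
    rw [hcard] at this
    norm_cast at this
    omega
  · have hev : ∀ᶠ n in U, (Gn n).Adj i j ∨ Sat X D (Gn n) i |X i - X j| ∨
        Sat X D (Gn n) j |X i - X j| := by
      apply hU
      filter_upwards [eventually_ge_atTop (max i.natAbs j.natAbs)] with n hn
      refine h3 n (i, j) ?_ hij
      simp only [Finset.mem_product, Finset.mem_Icc]
      omega
    rcases Ultrafilter.eventually_or.1 hev with h | h
    · exact Or.inl h
    · rcases Ultrafilter.eventually_or.1 h with h | h
      · exact Or.inr (Or.inl (hsat _ _ h))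
      · exact Or.inr (Or.inr (hsat _ _ h))

theorem conclusion (hfin : ∀ i t, {k | |X i - X k| ≤ t}.Finite) (x : ℕ → ℤ) (T : ℕ → ℝ)
    (hinj : Function.Injective x) (hT : Tendsto T atTop atTop) (hmono : Monotone T)
    (h1 : ∀ j, |X (x j)| ≤ T j / 2) (h2 : ∀ j, |X (x j) - X (x (j + 1))| ≤ T j)
    (hact : ∀ G, PStable X D G → ∀ j t, t ≤ T j → ¬ Sat X D G (x j) t) :
    (∃ G, IsStableMultiMatching X D G) ∧
      ∀ G, IsStableMultiMatching X D G → ∃ c : G.ConnectedComponent, c.supp.Infinite := by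
  constructor
  · obtain ⟨G, hG⟩ := exists_pstable X D hfin
    refine ⟨G, hG.stable fun a => ?_⟩
    by_contra hne
    obtain ⟨j0, hj0⟩ := eventually_atTop.1 (hT.eventually_ge_atTop (2 * |X a|))
    have hsub : (x '' Set.Ici j0) \ {a} ⊆ G.neighborSet a := by
      rintro _ ⟨⟨j, hj, rfl⟩, hja⟩
      rcases hG.2 a (x j) (fun h => hja h.symm) with h | h | h
      · exact h
      · exact absurd h.1 hne
      · refine absurd h (hact G hG j _ ?_)
        have := abs_sub (X a) (X (x j))
        linarith [hj0 j hj, h1 j]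
    have hinf : ((x '' Set.Ici j0) \ {a}).Infinite :=
      ((Set.Ici_infinite j0).image hinj.injOn).sdiff (Set.finite_singleton a)
    exact (hinf.mono hsub) (Set.finite_of_encard_le_coe (hG.1 a))
  · intro G hG
    have hP := hG.pstable
    have hadj : ∀ j, G.Adj (x j) (x (j + 1)) := by
      intro j
      rcases hP.2 (x j) (x (j + 1)) (fun h => by have := hinj h; omega) with h | h | h
      · exact h
      · exact absurd h (hact G hP j _ (h2 j))
      · exact absurd h (hact G hP (j + 1) _ ((h2 j).trans (hmono (Nat.le_succ j))))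
    have hr : ∀ j, G.Reachable (x j) (x 0) := by
      intro j
      induction j with
      | zero => rfl
      | succ j ih => exact (hadj j).symm.reachable.trans ih
    refine ⟨G.connectedComponentMk (x 0), (Set.infinite_range_of_injective hinj).mono ?_⟩
    rintro _ ⟨j, rfl⟩
    exact SimpleGraph.ConnectedComponent.sound (hr j)

end Pool.Agent.P.MP_32afb7_pr
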