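import Pool.Agent.P.MP_32afb7_pr.Det

namespace Pool.Agent.P.MP_32afb7_pr

open Filter

variable {g : ℤ → ℝ}

theorem point_pos_eq (g : ℤ → ℝ) {n : ℤ} (hn : 1 ≤ n) : point g n = ∑ i ∈ Finset.Ioc 0 n, g i := by
  unfold point
  rw [Finset.Icc_eq_empty (by omega)]; simp

theorem point_nonpos_eq (g : ℤ → ℝ) {n : ℤ} (hn : n ≤ 0) :
    point g n = -∑ i ∈ Finset.Icc n 0, g i := by
  unfold point
  rw [Finset.Ioc_eq_empty (by omega)]; simp

theorem point_succ_pos (g : ℤ → ℝ) {n : ℤ} (hn : 1 ≤ n) :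
    point g (n + 1) = point g n + g (n + 1) := by
  rw [point_pos_eq g hn, point_pos_eq g (by omega),
    show Finset.Ioc 0 (n + 1) = insert (n + 1) (Finset.Ioc 0 n) by ext; simp; omega,
    Finset.sum_insert (by simp)]
  ring

theorem point_succ_zero (g : ℤ → ℝ) : point g 1 = point g 0 + g 0 + g 1 := by
  rw [point_pos_eq g le_rfl, point_nonpos_eq g le_rfl,
    show Finset.Ioc (0 : ℤ) 1 = {1} by rfl]
  simp

theorem point_succ_neg (g : ℤ → ℝ) {n : ℤ} (hn : n ≤ -1) :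
    point g (n + 1) = point g n + g n := by
  rw [point_nonpos_eq g (by omega), point_nonpos_eq g (n := n) (by omega),
    show Finset.Icc n 0 = insert n (Finset.Icc (n + 1) 0) by ext; simp; omega,
    Finset.sum_insert (by simp)]
  ring

theorem point_mono (hg : ∀ i, 0 < g i) : StrictMono (point g) := by
  apply strictMono_int_of_lt_succ
  intro n
  rcases lt_trichotomy n 0 with h | rfl | h
  · rw [point_succ_neg g (by omega)]; linarith [hg n]
  · rw [zero_add, point_succ_zero]; linarith [hg 0, hg 1]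
  · rw [point_succ_pos g (by omega)]; linarith [hg (n + 1)]

theorem min_gap (hg : ∀ i, 0 < g i) {a : ℤ} (ha : 1 ≤ a) {δ : ℝ} (h1 : δ ≤ g a)
    (h2 : δ ≤ g (a + 1)) : ∀ y, y ≠ a → δ ≤ |point g a - point g y| := by
  intro y hy
  rcases lt_or_gt_of_ne hy with h | h
  · have h3 : point g y ≤ point g (a - 1) := (point_mono hg).monotone (by omega)
    have h4 : point g (a - 1) + g a ≤ point g a := by
      rcases eq_or_lt_of_le ha with rfl | h5
      · rw [sub_self, point_succ_zero]; linarith [hg 0]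
      · have := point_succ_pos g (n := a - 1) (by omega)
        rw [sub_add_cancel] at this; linarith
    exact le_trans (by linarith) (le_abs_self _)
  · have h3 : point g (a + 1) ≤ point g y := (point_mono hg).monotone (by omega)
    rw [point_succ_pos g ha] at h3
    rw [abs_sub_comm]
    exact le_trans (by linarith) (le_abs_self _)

theorem point_upper (hg : ∀ i, 0 < g i) {N : ℕ} {M : ℝ}
    (h : ∀ i ∈ Finset.Icc (1 : ℤ) N, g i ≤ M) {a : ℤ} (ha : a ∈ Finset.Icc (1 : ℤ) N) :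
    0 ≤ point g a ∧ point g a ≤ N * M := by
  rw [Finset.mem_Icc] at ha
  constructor
  · rw [point_pos_eq g ha.1]; exact Finset.sum_nonneg fun i _ => (hg i).le
  · refine ((point_mono hg).monotone ha.2).trans ?_
    rw [point_pos_eq g (by omega)]
    refine (Finset.sum_le_card_nsmul _ _ M fun i hi => h i ?_).trans (by simp)
    rw [Finset.mem_Ioc] at hi; rw [Finset.mem_Icc]; omega

theorem sum_lower (hg : ∀ i, 0 < g i) (S U : Finset ℤ) (hSU : S ⊆ U) {η : ℝ} (hη : 0 ≤ η) {K : ℕ}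
    (h1 : (U.filter fun i => g i < η).card < K) (h2 : 2 * K ≤ S.card) :
    η * K ≤ ∑ i ∈ S, g i := by
  have h3 := Finset.card_filter_add_card_filter_not (s := S) (fun i => g i < η)
  have h4 := Finset.card_le_card (Finset.filter_subset_filter (fun i => g i < η) hSU)
  have h5 : K ≤ (S.filter fun i => ¬ g i < η).card := by omega
  calc η * K ≤ (S.filter fun i => ¬ g i < η).card • η := by
        rw [nsmul_eq_mul, mul_comm]; gcongr
    _ ≤ ∑ i ∈ S.filter (fun i => ¬ g i < η), g i :=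
        Finset.card_nsmul_le_sum _ _ _ fun i hi => not_lt.1 (Finset.mem_filter.1 hi).2
    _ ≤ _ := Finset.sum_le_sum_of_subset_of_nonneg (Finset.filter_subset _ _)
        fun i _ _ => (hg i).le

theorem window (hg : ∀ i, 0 < g i) {η : ℝ} (hη : 0 ≤ η) {K : ℕ} (hK : 1 ≤ K)
    (h1 : ((Finset.Icc (-(2 * K : ℕ) : ℤ) (2 * K : ℕ)).filter fun i => g i < η).card < K)
    {y : ℤ} (hy : |point g y| < η * K) : y ∈ Finset.Icc (-(2 * K : ℕ) : ℤ) (2 * K : ℕ) := by
  rw [abs_lt] at hy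
  have a1 := sum_lower hg (Finset.Ioc 0 ((2 * K : ℕ) : ℤ)) _
    (by intro i hi; rw [Finset.mem_Ioc] at hi; rw [Finset.mem_Icc]; omega) hη h1 (by simp)
  have a2 := sum_lower hg (Finset.Icc (-((2 * K : ℕ) : ℤ)) 0) _
    (by intro i hi; rw [Finset.mem_Icc] at hi ⊢; omega) hη h1 (by simp; omega)
  rw [← point_pos_eq g (by omega)] at a1
  have a3 := point_nonpos_eq g (n := -((2 * K : ℕ) : ℤ)) (by omega)
  have b1 : y < ((2 * K : ℕ) : ℤ) := (point_mono hg).lt_iff_lt.1 (by linarith)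
  have b2 : -((2 * K : ℕ) : ℤ) < y := (point_mono hg).lt_iff_lt.1 (by linarith)
  rw [Finset.mem_Icc]; omega

def dg (j : ℕ) : ℕ := 2 ^ (4 * j ^ 2 + 1) + 1
def NN (j : ℕ) : ℕ := 2 ^ (j ^ 3 + j + 1)
def tau (j : ℕ) : ℕ := (j + 2) ^ 3 + 4 * j + 10
def KK (j : ℕ) : ℕ := 2 ^ (tau j + j + 1)
def mm (j : ℕ) : ℕ := 2 ^ (3 * j ^ 2 + 15 * j + 19)
noncomputable def win (j : ℕ) : Finset ℤ := Finset.Icc (-(2 * KK j : ℕ) : ℤ) (2 * KK j : ℕ)

theorem dg_mono : StrictMono dg := by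
  intro a b h
  unfold dg
  have : a ^ 2 < b ^ 2 := Nat.pow_lt_pow_left h (by norm_num)
  have := Nat.pow_lt_pow_right (a := 2) (by norm_num) (show 4 * a ^ 2 + 1 < 4 * b ^ 2 + 1 by omega)
  omega

theorem NN_mono : Monotone NN := by
  intro a b h
  unfold NN
  have : a ^ 3 ≤ b ^ 3 := Nat.pow_le_pow_left h 3
  exact Nat.pow_le_pow_right (by norm_num) (by omega)

theorem tau_mono : Monotone tau := by
  intro a b h
  unfold tau
  have : (a + 2) ^ 3 ≤ (b + 2) ^ 3 := Nat.pow_le_pow_left (by omega) 3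
  omega

theorem cube_le (j : ℕ) : (j + 3) ^ 3 ≤ 2 ^ (3 * j + 6) := by
  have h : j + 3 ≤ 2 ^ (j + 2) := Nat.succ_le_of_lt Nat.lt_two_pow_self
  calc (j + 3) ^ 3 ≤ (2 ^ (j + 2)) ^ 3 := Nat.pow_le_pow_left h 3
    _ = _ := by rw [← pow_mul]; congr 1; ring

theorem deg_ineq {j : ℕ} (hj : 9 ≤ j) :
    2 * (2 * tau j + 2 * j + 3) * (dg j + 1) + mm j < dg (j + 1) := by
  have h1 : 2 * tau j + 2 * j + 3 ≤ 2 ^ (8 * j + 1) := by
    have a1 := cube_le j
    have a2 : 2 * tau j + 2 * j + 3 ≤ 4 * (j + 3) ^ 3 := by unfold tau; nlinarith [sq_nonneg j]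
    have a3 : 4 * 2 ^ (3 * j + 6) ≤ 2 ^ (8 * j + 1) := by
      rw [show 4 * 2 ^ (3 * j + 6) = 2 ^ (3 * j + 8) by ring]
      exact Nat.pow_le_pow_right (by norm_num) (by omega)
    omega
  have h2 : dg j + 1 ≤ 2 ^ (4 * j ^ 2 + 2) := by
    unfold dg
    have : 2 ^ 1 ≤ 2 ^ (4 * j ^ 2 + 1) := Nat.pow_le_pow_right (by norm_num) (by omega)
    rw [show 2 ^ (4 * j ^ 2 + 2) = 2 * 2 ^ (4 * j ^ 2 + 1) by ring]
    omega
  have h3 : mm j ≤ 2 ^ (4 * j ^ 2 + 8 * j + 4) :=
    Nat.pow_le_pow_right (by norm_num) (by nlinarith)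
  have h4 : 2 * (2 * tau j + 2 * j + 3) * (dg j + 1) ≤ 2 ^ (4 * j ^ 2 + 8 * j + 4) :=
    calc _ ≤ 2 * 2 ^ (8 * j + 1) * 2 ^ (4 * j ^ 2 + 2) := by gcongr
      _ = _ := by ring
  have h5 : dg (j + 1) = 2 * 2 ^ (4 * j ^ 2 + 8 * j + 4) + 1 := by unfold dg; ring
  omega

/-- The good event at level `j`. -/
structure Level (g : ℤ → ℝ) (D : ℤ → ℕ) (j : ℕ) : Prop where
  ex : ∃ i ∈ Finset.Icc (1 : ℤ) (NN (j + 1)), D i = dg (j + 1)
  up : ∀ i ∈ Finset.Icc (1 : ℤ) (NN (j + 2)), g i ≤ 2 ^ (3 * j + 6)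
  few : ((win j).filter fun i => g i < (1 / 2) ^ j).card < KK j
  gap : ∀ i ∈ win j, (1 / 2 : ℝ) ^ (tau j + 2 * j + 2) ≤ g i
  high : ((win j).filter fun i => dg j < D i).card < mm j

theorem Level.pos_bound {D : ℤ → ℕ} {j : ℕ} (h : Level g D j) (hg : ∀ i, 0 < g i) {a : ℤ}
    (ha : a ∈ Finset.Icc (1 : ℤ) (NN (j + 2))) :
    0 ≤ point g a ∧ point g a ≤ (2 : ℝ) ^ tau j / 2 := by
  have := point_upper hg h.up ha
  refine ⟨this.1, this.2.trans (le_of_eq ?_)⟩
  unfold NN tau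
  push_cast
  ring

theorem Level.mem_win {D : ℤ → ℕ} {j : ℕ} (h : Level g D j) (hg : ∀ i, 0 < g i) {y : ℤ}
    (hy : |point g y| < 2 * (2 : ℝ) ^ tau j) : y ∈ win j := by
  refine window hg (η := (1 / 2) ^ j) (by positivity) Nat.one_le_two_pow h.few ?_
  refine hy.trans_le (le_of_eq ?_)
  push_cast
  rw [one_div, inv_pow]
  field_simp
  ring

theorem Level.not_sat {D : ℤ → ℕ} {j : ℕ} (h : Level g D j) (hg : ∀ i, 0 < g i) (hj : 9 ≤ j)
    {a : ℤ} (ha : a ∈ Finset.Icc (1 : ℤ) (NN (j + 1))) (hD : D a = dg (j + 1))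
    {G : SimpleGraph ℤ} (hG : PStable (point g) D G) (t : ℝ) (ht : t ≤ (2 : ℝ) ^ tau j) :
    ¬ Sat (point g) D G a t := by
  have hN : NN (j + 1) ≤ NN (j + 2) := NN_mono (by omega)
  have hN2 : NN (j + 2) < 2 * KK j := by
    unfold NN KK tau
    rw [← pow_succ']
    exact Nat.pow_lt_pow_right (by norm_num) (by omega)
  rw [Finset.mem_Icc] at ha
  have hb := h.pos_bound hg (a := a) (by rw [Finset.mem_Icc]; omega)
  refine hG.active a (dg j) ((1 / 2 : ℝ) ^ (tau j + 2 * j + 2)) ((2 : ℝ) ^ tau j)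
    (min_gap hg ha.1 (h.gap a ?_) (h.gap (a + 1) ?_)) (2 * tau j + 2 * j + 3) ?_ (mm j) ?_
    (by rw [hD]; exact deg_ineq hj) t ht
  · unfold win; rw [Finset.mem_Icc]; omega
  · unfold win; rw [Finset.mem_Icc]; omega
  · rw [one_div, inv_pow, show 2 * tau j + 2 * j + 3 = (tau j + 2 * j + 2) + (tau j + 1) by ring,
      pow_add (2 : ℝ) (tau j + 2 * j + 2), inv_mul_cancel_left₀ (by positivity)]
    exact pow_lt_pow_right₀ (by norm_num) (by omega)
  · refine le_trans (Set.encard_le_encard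
      (t := ↑((win j).filter fun i => dg j < D i)) ?_) ?_
    · rintro y ⟨h1, h2⟩
      rw [Finset.coe_filter]
      refine ⟨h.mem_win hg ?_, h1⟩
      have h3 : (0 : ℝ) < 2 ^ tau j := by positivity
      rw [abs_le] at h2
      rw [abs_lt]; constructor <;> linarith [hb.1, hb.2]
    · rw [Set.encard_coe_eq_coe_finsetCard]; exact_mod_cast h.high.le

theorem of_levels {D : ℤ → ℕ} (hg : ∀ i, 0 < g i) (h : ∀ᶠ j in atTop, Level g D j) :
    (∃ G, IsStableMultiMatching (point g) D G) ∧ ∀ G, IsStableMultiMatching (point g) D G →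
      ∃ c : G.ConnectedComponent, c.supp.Infinite := by
  obtain ⟨j0, hj0⟩ := eventually_atTop.1 (h.and (eventually_ge_atTop 9))
  have hl : ∀ j, Level g D (j + j0) := fun j => (hj0 _ (by omega)).1
  have h9 : ∀ j, 9 ≤ j + j0 := fun j => (hj0 _ (by omega)).2
  choose x hx hD using fun j => (hl j).ex
  have hT : Tendsto (fun j => (2 : ℝ) ^ tau (j + j0)) atTop atTop := by
    refine (tendsto_pow_atTop_atTop_of_one_lt (by norm_num)).comp ?_
    exact tendsto_atTop_mono (fun j => by unfold tau; simp only [id]; omega) tendsto_id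
  have hx' : ∀ j, x j ∈ Finset.Icc (1 : ℤ) (NN (j + j0 + 2)) := by
    intro j
    have h1 := hx j
    have h2 : NN (j + j0 + 1) ≤ NN (j + j0 + 2) := NN_mono (by omega)
    rw [Finset.mem_Icc] at h1 ⊢; omega
  refine conclusion ?_ x (fun j => (2 : ℝ) ^ tau (j + j0)) ?_ hT ?_ ?_ ?_ ?_
  · intro i t
    obtain ⟨j, hj⟩ := (hT.eventually_gt_atTop (|point g i| + t)).exists
    refine (win (j + j0)).finite_toSet.subset fun k hk => (hl j).mem_win hg ?_
    have h1 : |point g i - point g k| ≤ t := hk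
    have h2 := abs_sub_abs_le_abs_sub (point g k) (point g i)
    rw [abs_sub_comm] at h2
    have h3 : (0 : ℝ) < 2 ^ tau (j + j0) := by positivity
    linarith
  · intro a b hab
    have := hD a
    rw [hab, hD b] at this
    have := dg_mono.injective this
    omega
  · intro a b hab
    exact pow_le_pow_right₀ (by norm_num) (tau_mono (by omega))
  · intro j
    have := (hl j).pos_bound hg (hx' j)
    rw [abs_of_nonneg this.1]; exact this.2
  · intro j
    have h1 := (hl j).pos_bound hg (hx' j)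
    have h2 := (hl j).pos_bound hg (a := x (j + 1)) (by
      have := hx (j + 1)
      rwa [show j + 1 + j0 + 1 = j + j0 + 2 by ring] at this)
    have h3 : (0 : ℝ) < 2 ^ tau (j + j0) := by positivity
    rw [abs_le]; constructor <;> linarith [h1.1, h1.2, h2.1, h2.2]
  · intro G hG j t ht
    exact (hl j).not_sat hg (h9 j) (hx j) (hD j) hG t ht

end Pool.Agent.P.MP_32afb7_pr
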