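import Pool.Agent.P.MP_32afb7_pr.Geom

namespace Pool.Agent.P.MP_32afb7_pr

open Filter MeasureTheory ProbabilityTheory
open scoped ENNReal

instance instProbExp : IsProbabilityMeasure (expMeasure 1) :=
  isProbabilityMeasure_expMeasure one_pos

theorem exp_Iic (x : ℝ) (hx : 0 ≤ x) : (expMeasure 1).real (Set.Iic x) = 1 - Real.exp (-x) := by
  have := cdf_expMeasure_eq one_pos x
  rw [cdf_eq_real, if_pos hx, one_mul] at this
  exact this

theorem exp_Iio_le (x : ℝ) (hx : 0 ≤ x) : (expMeasure 1).real (Set.Iio x) ≤ x := by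
  refine (measureReal_mono Set.Iio_subset_Iic_self).trans ?_
  rw [exp_Iic x hx]; linarith [Real.add_one_le_exp (-x)]

theorem exp_Ioi (x : ℝ) (hx : 0 ≤ x) : (expMeasure 1).real (Set.Ioi x) = Real.exp (-x) := by
  rw [← Set.compl_Iic, probReal_compl_eq_one_sub measurableSet_Iic, exp_Iic x hx]; ring

variable (μ : Measure ℕ) [IsProbabilityMeasure μ]

instance instProbMarked : IsProbabilityMeasure (markedLaw μ) := by
  unfold markedLaw; infer_instance

theorem marked_eval (i : ℤ) {B : Set (ℝ × ℕ)} (hB : MeasurableSet B) :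
    markedLaw μ {ω | ω i ∈ B} = ((expMeasure 1).prod μ) B :=
  (measurePreserving_eval_infinitePi (fun _ : ℤ => (expMeasure 1).prod μ) i).measure_preimage
    hB.nullMeasurableSet

theorem count_bound (S : Finset ℤ) {B : Set (ℝ × ℕ)} [DecidablePred (· ∈ B)]
    (hB : MeasurableSet B) (m : ℕ) :
    (m : ℝ) * (markedLaw μ).real {ω | m ≤ (S.filter fun i => ω i ∈ B).card} ≤
      S.card * ((expMeasure 1).prod μ).real B := by
  have hmeas : ∀ i, MeasurableSet {ω : ℤ → ℝ × ℕ | ω i ∈ B} :=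
    fun i => measurable_pi_apply i hB
  have hf : Measurable fun ω : ℤ → ℝ × ℕ =>
      ∑ i ∈ S, {ω : ℤ → ℝ × ℕ | ω i ∈ B}.indicator (1 : (ℤ → ℝ × ℕ) → ℝ≥0∞) ω :=
    Finset.measurable_sum _ fun i _ => measurable_one.indicator (hmeas i)
  have h1 := mul_meas_ge_le_lintegral (μ := markedLaw μ) hf m
  rw [lintegral_finsetSum _ fun i _ => measurable_one.indicator (hmeas i)] at h1
  simp only [lintegral_indicator_one (hmeas _), marked_eval μ _ hB, Finset.sum_const,
    nsmul_eq_mul] at h1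
  have h2 : {ω : ℤ → ℝ × ℕ | m ≤ (S.filter fun i => ω i ∈ B).card} =
      {ω | (m : ℝ≥0∞) ≤
        ∑ i ∈ S, {ω : ℤ → ℝ × ℕ | ω i ∈ B}.indicator (1 : (ℤ → ℝ × ℕ) → ℝ≥0∞) ω} := by
    ext ω
    have : ∀ i, {ω : ℤ → ℝ × ℕ | ω i ∈ B}.indicator (1 : (ℤ → ℝ × ℕ) → ℝ≥0∞) ω =
        if ω i ∈ B then 1 else 0 := by
      intro i; by_cases h : ω i ∈ B <;> simp [h]
    simp only [Set.mem_ofPred_eq, this, Finset.sum_boole, Nat.cast_le]
  rw [h2]
  have h3 := ENNReal.toReal_mono (by finiteness) h1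
  simpa only [ENNReal.toReal_mul, ENNReal.toReal_natCast, Measure.real] using h3

theorem none_bound (S : Finset ℤ) (d : ℕ) :
    (S.card * μ.real {d}) * (markedLaw μ).real {ω | ∀ i ∈ S, (ω i).2 ≠ d} ≤ 1 := by
  have h1 : {ω : ℤ → ℝ × ℕ | ∀ i ∈ S, (ω i).2 ≠ d} =
      Set.pi S fun _ => Set.univ ×ˢ ({d}ᶜ : Set ℕ) := by
    ext ω; simp
  have h2 : (markedLaw μ).real {ω | ∀ i ∈ S, (ω i).2 ≠ d} = (1 - μ.real {d}) ^ S.card := by
    rw [h1, Measure.real, markedLaw, Measure.infinitePi_pi _ (fun _ _ => by measurability)]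
    simp only [Measure.prod_prod, measure_univ, one_mul, Finset.prod_const, ENNReal.toReal_pow]
    rw [← probReal_compl_eq_one_sub (measurableSet_singleton d)]; rfl
  rw [h2]
  set p := μ.real {d}
  have hp : 0 ≤ p := measureReal_nonneg
  have hp1 : p ≤ 1 := measureReal_le_one
  have h3 : (1 - p) ^ S.card ≤ Real.exp (-(S.card * p)) := by
    rw [show -(S.card * p) = S.card * (-p) by ring, Real.exp_nat_mul]
    exact pow_le_pow_left₀ (by linarith) (by linarith [Real.add_one_le_exp (-p)]) _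
  have h4 : S.card * p ≤ Real.exp (S.card * p) := by linarith [Real.add_one_le_exp (S.card * p)]
  calc _ ≤ Real.exp (S.card * p) * Real.exp (-(S.card * p)) :=
        mul_le_mul h4 h3 (pow_nonneg (by linarith) _) (Real.exp_pos _).le
    _ = 1 := by rw [← Real.exp_add]; simp

theorem bc_real {Ω : Type} [MeasurableSpace Ω] (P : Measure Ω) [IsProbabilityMeasure P]
    (s : ℕ → Set Ω) (C : ℝ) (h : ∀ j, P.real (s j) ≤ C * (1 / 2) ^ j) :
    ∀ᵐ ω ∂P, ∀ᶠ j in atTop, ω ∉ s j := by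
  apply ae_eventually_notMem
  have h1 : Summable fun j => P.real (s j) :=
    Summable.of_nonneg_of_le (fun _ => measureReal_nonneg) h (summable_geometric_two.mul_left C)
  have h2 := h1.tsum_ofReal_ne_top
  simpa only [ofReal_measureReal (measure_ne_top _ _)] using h2

theorem prod_fst (A : Set ℝ) :
    ((expMeasure 1).prod μ).real {p | p.1 ∈ A} = (expMeasure 1).real A := by
  rw [show {p : ℝ × ℕ | p.1 ∈ A} = A ×ˢ Set.univ by ext; simp, Measure.real, Measure.prod_prod]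
  simp [Measure.real]

omit [IsProbabilityMeasure μ] in
theorem prod_snd (A : Set ℕ) : ((expMeasure 1).prod μ).real {p | p.2 ∈ A} = μ.real A := by
  rw [show {p : ℝ × ℕ | p.2 ∈ A} = Set.univ ×ˢ A by ext; simp, Measure.real, Measure.prod_prod]
  simp [Measure.real]

theorem card_Icc_NN (j : ℕ) :
    ((Finset.Icc (1 : ℤ) (NN j)).card : ℝ) = 2 ^ (j ^ 3 + j + 1) := by
  have : (Finset.Icc (1 : ℤ) (NN j)).card = NN j := by simp
  rw [this, NN, Nat.cast_pow, Nat.cast_ofNat]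

theorem card_win (j : ℕ) : ((win j).card : ℝ) ≤ 5 * 2 ^ (tau j + j + 1) := by
  have h1 : (win j).card = 4 * KK j + 1 := by unfold win; simp; omega
  have h2 : 1 ≤ KK j := Nat.one_le_two_pow
  have h3 : (win j).card ≤ 5 * 2 ^ (tau j + j + 1) := by unfold KK at *; omega
  exact_mod_cast h3

theorem ae_levels (h1 : ∀ j, (1 / 2 : ℝ) ^ (j ^ 3 + 1) ≤ μ.real {dg j})
    (h2 : ∀ j, μ.real {n | dg j < n} ≤ 2 * (1 / 2 : ℝ) ^ ((j + 1) ^ 3)) :
    ∀ᵐ ω ∂markedLaw μ, ∀ᶠ j in atTop, Level (fun i => (ω i).1) (fun i => (ω i).2) j := by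
  classical
  have e1 := bc_real (markedLaw μ)
    (fun j => {ω | ∀ i ∈ Finset.Icc (1 : ℤ) (NN (j + 1)), (ω i).2 ≠ dg (j + 1)}) 1 (by
      intro j
      have a1 := none_bound μ (Finset.Icc (1 : ℤ) (NN (j + 1))) (dg (j + 1))
      have a2 := card_Icc_NN (j + 1)
      have a3 : (2 : ℝ) ^ (j + 1) ≤
          (Finset.Icc (1 : ℤ) (NN (j + 1))).card * μ.real {dg (j + 1)} := by
        rw [a2]
        refine le_trans (le_of_eq ?_) (mul_le_mul_of_nonneg_left (h1 (j + 1)) (by positivity))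
        rw [one_div, inv_pow]; field_simp; ring
      have a4 := (mul_le_mul_of_nonneg_right a3 measureReal_nonneg).trans a1
      rw [one_mul, one_div, inv_pow, ← one_div, le_div_iff₀ (by positivity)]
      have a5 : (0 : ℝ) ≤ (markedLaw μ).real
        {ω | ∀ i ∈ Finset.Icc (1 : ℤ) (NN (j + 1)), (ω i).2 ≠ dg (j + 1)} := measureReal_nonneg
      have a6 : (0 : ℝ) < 2 ^ j := by positivity
      rw [pow_succ] at a4
      nlinarith)
  have e2 := bc_real (markedLaw μ)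
    (fun j => {ω | 1 ≤ ((Finset.Icc (1 : ℤ) (NN (j + 2))).filter fun i =>
      ω i ∈ {p : ℝ × ℕ | p.1 ∈ Set.Ioi ((2 : ℝ) ^ (3 * j + 6))}).card}) 1 (by
      intro j
      have a1 := count_bound μ (Finset.Icc (1 : ℤ) (NN (j + 2)))
        (B := {p : ℝ × ℕ | p.1 ∈ Set.Ioi ((2 : ℝ) ^ (3 * j + 6))})
        (measurable_fst measurableSet_Ioi) 1
      rw [prod_fst, exp_Ioi _ (by positivity), Nat.cast_one, one_mul] at a1
      refine a1.trans ?_
      have a2 := card_Icc_NN (j + 2)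
      have a3 : (j + 2) ^ 3 + (j + 2) + 1 + j ≤ 2 ^ (3 * j + 6) :=
        le_trans (by nlinarith [sq_nonneg j]) (cube_le j)
      have a4 : (2 : ℝ) ^ ((j + 2) ^ 3 + (j + 2) + 1 + j) ≤ Real.exp (2 ^ (3 * j + 6)) := by
        refine le_trans (pow_le_pow_right₀ (by norm_num) a3) ?_
        rw [show ((2 : ℝ) ^ (3 * j + 6)) = ((2 ^ (3 * j + 6) : ℕ) : ℝ) * 1 by push_cast; ring,
          Real.exp_nat_mul]
        exact pow_le_pow_left₀ (by norm_num) (by linarith [Real.add_one_le_exp (1 : ℝ)]) _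
      rw [a2, Real.exp_neg, one_mul, one_div, inv_pow, ← div_eq_mul_inv, ← one_div,
        div_le_div_iff₀ (Real.exp_pos _) (by positivity), one_mul, ← pow_add]
      exact a4)
  have e3 := bc_real (markedLaw μ)
    (fun j => {ω | KK j ≤ ((win j).filter fun i =>
      ω i ∈ {p : ℝ × ℕ | p.1 ∈ Set.Iio ((1 / 2 : ℝ) ^ j)}).card}) 5 (by
      intro j
      have a1 := count_bound μ (win j) (B := {p : ℝ × ℕ | p.1 ∈ Set.Iio ((1 / 2 : ℝ) ^ j)})
        (measurable_fst measurableSet_Iio) (KK j)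
      rw [prod_fst] at a1
      have a2 := a1.trans (mul_le_mul (card_win j) (exp_Iio_le _ (by positivity))
        measureReal_nonneg (by positivity))
      have a3 : ((KK j : ℕ) : ℝ) = 2 ^ (tau j + j + 1) := by
        rw [KK, Nat.cast_pow, Nat.cast_ofNat]
      rw [a3] at a2
      exact le_of_mul_le_mul_left (a2.trans (le_of_eq (by ring)))
        (show (0 : ℝ) < 2 ^ (tau j + j + 1) by positivity))
  have e4 := bc_real (markedLaw μ)
    (fun j => {ω | 1 ≤ ((win j).filter fun i =>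
      ω i ∈ {p : ℝ × ℕ | p.1 ∈ Set.Iio ((1 / 2 : ℝ) ^ (tau j + 2 * j + 2))}).card}) 5 (by
      intro j
      have a1 := count_bound μ (win j)
        (B := {p : ℝ × ℕ | p.1 ∈ Set.Iio ((1 / 2 : ℝ) ^ (tau j + 2 * j + 2))})
        (measurable_fst measurableSet_Iio) 1
      rw [prod_fst, Nat.cast_one, one_mul] at a1
      refine (a1.trans (mul_le_mul (card_win j) (exp_Iio_le _ (by positivity))
        measureReal_nonneg (by positivity))).trans ?_
      rw [show tau j + 2 * j + 2 = (tau j + j + 1) + (j + 1) by ring,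
        pow_add (1 / 2 : ℝ) (tau j + j + 1), ← mul_assoc, mul_assoc 5, ← mul_pow,
        show (2 : ℝ) * (1 / 2) = 1 by norm_num, one_pow, pow_succ]
      have : (0 : ℝ) < (1 / 2) ^ j := by positivity
      linarith)
  have e5 := bc_real (markedLaw μ)
    (fun j => {ω | mm j ≤ ((win j).filter fun i =>
      ω i ∈ {p : ℝ × ℕ | p.2 ∈ {n | dg j < n}}).card}) 5 (by
      intro j
      have a1 := count_bound μ (win j) (B := {p : ℝ × ℕ | p.2 ∈ {n | dg j < n}})
        (measurable_snd (MeasurableSet.of_discrete)) (mm j)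
      rw [prod_snd] at a1
      have a2 := a1.trans (mul_le_mul (card_win j) (h2 j) measureReal_nonneg (by positivity))
      have a3 : ((mm j : ℕ) : ℝ) = 2 ^ (3 * j ^ 2 + 15 * j + 19) := by
        rw [mm, Nat.cast_pow, Nat.cast_ofNat]
      rw [a3] at a2
      refine le_of_mul_le_mul_left (a2.trans (le_of_eq ?_))
        (show (0 : ℝ) < 2 ^ (3 * j ^ 2 + 15 * j + 19) by positivity)
      unfold tau
      simp only [one_div, inv_pow]
      field_simp
      ring)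
  filter_upwards [e1, e2, e3, e4, e5] with ω f1 f2 f3 f4 f5
  filter_upwards [f1, f2, f3, f4, f5] with j g1 g2 g3 g4 g5
  simp only [not_le, Nat.lt_one_iff, Finset.card_eq_zero,
    Finset.filter_eq_empty_iff, Set.mem_Ioi, Set.mem_Iio, not_lt] at g1 g2 g3 g4 g5
  refine ⟨?_, g2, g3, g4, g5⟩
  push Not at g1
  exact g1

theorem ae_pos : ∀ᵐ ω ∂markedLaw μ, ∀ i, 0 < (ω i).1 := by
  rw [ae_all_iff]
  intro i
  rw [ae_iff]
  have h := marked_eval μ i (B := {p : ℝ × ℕ | p.1 ∈ Set.Iic (0 : ℝ)})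
    (measurable_fst measurableSet_Iic)
  have h2 := prod_fst μ (Set.Iic 0)
  rw [exp_Iic 0 le_rfl] at h2
  simp only [neg_zero, Real.exp_zero, sub_self] at h2
  rw [measureReal_eq_zero_iff] at h2
  rw [h2] at h
  simpa using h

noncomputable def nu0 : Measure ℕ :=
  Measure.sum fun j => (2⁻¹ ^ (j ^ 3) : ℝ≥0∞) • Measure.dirac (dg j)

theorem nu0_apply (A : Set ℕ) :
    nu0 A = ∑' j, (2⁻¹ ^ (j ^ 3) : ℝ≥0∞) * A.indicator 1 (dg j) := by
  rw [nu0, Measure.sum_apply _ MeasurableSet.of_discrete]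
  simp only [Measure.smul_apply, Measure.dirac_apply, smul_eq_mul]

theorem tail_le (k : ℕ) :
    ∑' j, (2⁻¹ ^ ((j + k) ^ 3) : ℝ≥0∞) ≤ 2 * 2⁻¹ ^ (k ^ 3) := by
  calc _ ≤ ∑' j, (2⁻¹ ^ j : ℝ≥0∞) * 2⁻¹ ^ (k ^ 3) := by
        refine ENNReal.tsum_le_tsum fun j => ?_
        rw [← pow_add]
        refine pow_le_pow_right_of_le_one' (by norm_num) ?_
        have : j ≤ j ^ 3 := Nat.le_self_pow (by norm_num) j
        nlinarith [Nat.zero_le (j ^ 2 * k), Nat.zero_le (j * k ^ 2)]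
    _ = _ := by rw [ENNReal.tsum_mul_right, ENNReal.tsum_geometric]; simp

theorem nu0_single (j : ℕ) : (2⁻¹ ^ (j ^ 3) : ℝ≥0∞) ≤ nu0 {dg j} := by
  rw [nu0_apply]
  refine le_trans (le_of_eq ?_) (ENNReal.le_tsum j)
  simp

theorem nu0_univ_le : nu0 Set.univ ≤ 2 := by
  rw [nu0_apply]
  simpa using tail_le 0

theorem nu0_univ_ge : 1 ≤ nu0 Set.univ :=
  le_trans (by simpa using nu0_single 0) (measure_mono (Set.subset_univ {dg 0}))

theorem nu0_tail (j : ℕ) : nu0 {n | dg j < n} ≤ 2 * 2⁻¹ ^ ((j + 1) ^ 3) := by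
  rw [nu0_apply, ← ENNReal.summable.sum_add_tsum_nat_add' (k := j + 1), Finset.sum_eq_zero,
    zero_add]
  · refine le_trans (ENNReal.tsum_le_tsum fun i => ?_) (tail_le (j + 1))
    exact mul_le_of_le_one_right' (Set.indicator_le_self _ _ _)
  · intro i hi
    rw [Set.indicator_of_notMem, mul_zero]
    have := dg_mono.monotone (show i ≤ j by simpa [Nat.lt_succ_iff] using hi)
    simpa using this

noncomputable def mu0 : Measure ℕ := (nu0 Set.univ)⁻¹ • nu0

theorem nu0_ne_top : nu0 Set.univ ≠ ∞ := ne_top_of_le_ne_top (by norm_num) nu0_univ_le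
theorem nu0_ne_zero : nu0 Set.univ ≠ 0 := (lt_of_lt_of_le one_pos nu0_univ_ge).ne'

instance instProbMu0 : IsProbabilityMeasure mu0 :=
  ⟨by rw [mu0, Measure.smul_apply, smul_eq_mul, ENNReal.inv_mul_cancel nu0_ne_zero nu0_ne_top]⟩

theorem mu0_single (j : ℕ) : (1 / 2 : ℝ) ^ (j ^ 3 + 1) ≤ mu0.real {dg j} := by
  have h : (2⁻¹ ^ (j ^ 3 + 1) : ℝ≥0∞) ≤ mu0 {dg j} := by
    rw [mu0, Measure.smul_apply, smul_eq_mul, pow_succ']
    exact mul_le_mul' (ENNReal.inv_le_inv.2 nu0_univ_le) (nu0_single j)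
  have := ENNReal.toReal_mono (measure_ne_top _ _) h
  simpa [Measure.real] using this

theorem mu0_tail (j : ℕ) : mu0.real {n | dg j < n} ≤ 2 * (1 / 2 : ℝ) ^ ((j + 1) ^ 3) := by
  have h : mu0 {n | dg j < n} ≤ 2 * 2⁻¹ ^ ((j + 1) ^ 3) := by
    rw [mu0, Measure.smul_apply, smul_eq_mul]
    exact (mul_le_of_le_one_left' (ENNReal.inv_le_one.2 nu0_univ_ge)).trans (nu0_tail j)
  have := ENNReal.toReal_mono (by finiteness) h
  simpa [Measure.real] using this

theorem mu0_odd : mu0 {n | Odd n} = 1 := by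
  rw [← prob_compl_eq_zero_iff MeasurableSet.of_discrete, mu0, Measure.smul_apply,
    nu0_apply {n | Odd n}ᶜ]
  have : ∀ j, ({n | Odd n}ᶜ : Set ℕ).indicator (1 : ℕ → ℝ≥0∞) (dg j) = 0 := by
    intro j
    rw [Set.indicator_of_notMem]
    simp only [Set.mem_compl_iff, Set.mem_ofPred_eq, not_not]
    exact ⟨2 ^ (4 * j ^ 2), by unfold dg; ring⟩
  simp only [this, mul_zero, tsum_zero, smul_zero]

theorem mu0_moment (k : ℕ) : ∫⁻ n, (n : ℝ≥0∞) ^ k ∂mu0 < ∞ := by
  rw [mu0, lintegral_smul_measure, smul_eq_mul]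
  refine ENNReal.mul_lt_top (ENNReal.inv_lt_top.2 (pos_iff_ne_zero.2 nu0_ne_zero)) ?_
  rw [nu0, lintegral_sum_measure]
  simp only [lintegral_smul_measure, lintegral_dirac, smul_eq_mul]
  rw [← ENNReal.summable.sum_add_tsum_nat_add' (k := 6 * k + 1)]
  refine ENNReal.add_lt_top.2 ⟨ENNReal.sum_lt_top.2 fun i _ => by finiteness, ?_⟩
  refine lt_of_le_of_lt (ENNReal.tsum_le_tsum (g := fun j => (2⁻¹ : ℝ≥0∞) ^ j) fun j => ?_) ?_
  · set i := j + (6 * k + 1) with hi
    have h1 : dg i ≤ 2 ^ (6 * i ^ 2) := by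
      unfold dg
      have a1 : 1 ≤ i ^ 2 := Nat.one_le_pow _ _ (by omega)
      have a2 : 2 ^ (4 * i ^ 2 + 2) ≤ 2 ^ (6 * i ^ 2) :=
        Nat.pow_le_pow_right (by norm_num) (by omega)
      have a3 : 1 ≤ 2 ^ (4 * i ^ 2 + 1) := Nat.one_le_two_pow
      rw [pow_succ 2 (4 * i ^ 2 + 1)] at a2
      omega
    have h2 : ((dg i : ℕ) : ℝ≥0∞) ^ k ≤ 2 ^ (6 * i ^ 2 * k) := by
      rw [pow_mul]
      exact pow_le_pow_left' (by exact_mod_cast h1) k
    have h3 : j + 6 * i ^ 2 * k ≤ i ^ 3 := by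
      have a1 : i ^ 3 = i ^ 2 * j + 6 * i ^ 2 * k + i ^ 2 := by
        rw [pow_succ, hi]; ring
      have a2 : 1 ≤ i ^ 2 := Nat.one_le_pow _ _ (by omega)
      nlinarith
    calc (2⁻¹ : ℝ≥0∞) ^ (i ^ 3) * (dg i : ℝ≥0∞) ^ k
        ≤ 2⁻¹ ^ (j + 6 * i ^ 2 * k) * 2 ^ (6 * i ^ 2 * k) :=
          mul_le_mul' (pow_le_pow_right_of_le_one' (by norm_num) h3) h2
      _ = _ := by
          rw [pow_add, mul_assoc, ← mul_pow, ENNReal.inv_mul_cancel (by norm_num) (by norm_num)]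
          simp
  · rw [ENNReal.tsum_geometric]; simp

theorem main : ∀ᵐ ω ∂markedLaw mu0,
    (∃ G, IsStableMultiMatching (point fun i => (ω i).1) (fun i => (ω i).2) G) ∧
      ∀ G, IsStableMultiMatching (point fun i => (ω i).1) (fun i => (ω i).2) G →
        ∃ c : G.ConnectedComponent, c.supp.Infinite := by
  filter_upwards [ae_pos mu0, ae_levels mu0 mu0_single mu0_tail] with ω h1 h2
  exact of_levels h1 h2

end Pool.Agent.P.MP_32afb7_pr
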